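import Pool.Agent.Lib.MP_af3a4a_an.Sym

/-!
# Lower bounds for `‖(1 - E 1) W‖`
-/

namespace Pool.Agent.Lib.MP_af3a4a_an

open Finset

/-- the real quantity in the key inequality, rewritten -/
lemma real_rewrite (t : List ℝ) :
    (1 - E t 1) * W t - 2 / t.length * ∑ m ∈ range (t.length + 1), (m : ℝ) * E t (m + 1) =
      1 - E t 1 ^ 2 + ∑ m ∈ range (t.length - 1),
        ((1 - E t 1) - 2 / t.length * ((m : ℝ) + 1)) * E t (m + 2) := by
  rcases Nat.eq_zero_or_pos t.length with h0 | hpos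
  · have : t = [] := List.length_eq_zero_iff.1 h0
    subst this
    simp [W, E, e]
  obtain ⟨N, hN⟩ : ∃ N, t.length = N + 1 := ⟨t.length - 1, by omega⟩
  have hW : W t = 1 + E t 1 + ∑ m ∈ range N, E t (m + 2) := by
    rw [W, hN, Finset.sum_range_succ' _ (N + 1), Finset.sum_range_succ' _ N, E_zero]
    ring
  have hS : ∑ m ∈ range (t.length + 1), (m : ℝ) * E t (m + 1) =
      ∑ m ∈ range N, ((m : ℝ) + 1) * E t (m + 2) := by
    rw [hN, Finset.sum_range_succ, E_of_gt t (N + 1 + 1) (by omega), mul_zero, add_zero,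
      Finset.sum_range_succ' _ N]
    simp
  rw [hW, hS, hN, Nat.add_sub_cancel]
  have h3 : ∑ m ∈ range N, ((1 - E t 1) - 2 / ((N + 1 : ℕ) : ℝ) * ((m : ℝ) + 1)) * E t (m + 2) =
      (1 - E t 1) * ∑ m ∈ range N, E t (m + 2) -
      2 / ((N + 1 : ℕ) : ℝ) * ∑ m ∈ range N, ((m : ℝ) + 1) * E t (m + 2) := by
    rw [Finset.mul_sum, Finset.mul_sum, ← Finset.sum_sub_distrib]
    exact Finset.sum_congr rfl fun m _ => by ring
  rw [h3]
  ring

/-- `(1 - q) ∑ (m+1) E_{m+2} ≤ ∑ E_{m+2}` -/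
lemma tail_sum (t : List ℝ) (ht : ∀ x ∈ t, 0 ≤ x) (N : ℕ) (hN : t.length ≤ N + 1) :
    (1 - E t 1) * ∑ m ∈ range N, ((m : ℝ) + 1) * E t (m + 2) ≤ ∑ m ∈ range N, E t (m + 2) := by
  have h1 : ∑ m ∈ range N, ((m : ℝ) + 1) * E t (m + 3) ≤
      E t 1 * ∑ m ∈ range N, ((m : ℝ) + 1) * E t (m + 2) := by
    rw [Finset.mul_sum]
    refine Finset.sum_le_sum fun m _ => ?_
    have := E_succ_le t ht (m + 2)
    have h2 : (0 : ℝ) ≤ m + 1 := by positivity
    nlinarith
  have h2 : ∑ m ∈ range N, ((m : ℝ) + 1) * E t (m + 2) =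
      ∑ m ∈ range N, E t (m + 2) + ∑ m ∈ range N, ((m : ℝ) + 1) * E t (m + 3) := by
    rcases N with _ | N
    · simp
    rw [Finset.sum_range_succ' (fun m => ((m : ℝ) + 1) * E t (m + 2)) N,
      Finset.sum_range_succ (fun m => ((m : ℝ) + 1) * E t (m + 3)) N,
      Finset.sum_range_succ' (fun m => E t (m + 2)) N,
      E_of_gt t (N + 3) (by omega)]
    have h3 : ∑ k ∈ range N, (((k + 1 : ℕ) : ℝ) + 1) * E t (k + 1 + 2) =
        ∑ k ∈ range N, E t (k + 1 + 2) + ∑ k ∈ range N, ((k : ℝ) + 1) * E t (k + 3) := by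
      rw [← Finset.sum_add_distrib]
      refine Finset.sum_congr rfl fun k _ => ?_
      push_cast
      ring
    rw [h3]
    push_cast
    ring
  nlinarith

/-- large `N` -/
theorem bound_large (l : List ℂ) (hl : 0 < l.length) {q : ℝ} (hq : E (l.map norm) 1 ≤ q)
    (hq1 : q < 1) (h : 2 ≤ l.length * (1 - q) ^ 2) : 1 - q ^ 2 ≤ ‖(1 - E l 1) * W l‖ := by
  refine le_trans ?_ (norm_one_sub_mul_W l hl)
  set t := l.map norm with ht
  have htl : t.length = l.length := by rw [ht, List.length_map]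
  have htn := map_norm_nonneg l
  rw [← ht] at htn
  have h0 := real_rewrite t
  rw [htl] at h0
  rw [h0]
  set x := E t 1 with hx
  have hx0 : 0 ≤ x := E_real_nonneg t htn 1
  have hNR : (0 : ℝ) < l.length := Nat.cast_pos.2 hl
  have hT : 0 ≤ ∑ m ∈ range (l.length - 1), E t (m + 2) :=
    Finset.sum_nonneg fun m _ => E_real_nonneg t htn _
  have h1 := tail_sum t htn (l.length - 1) (by omega)
  rw [← hx] at h1
  have h3 : ∑ m ∈ range (l.length - 1), ((1 - x) - 2 / (l.length : ℝ) * ((m : ℝ) + 1)) * E t (m + 2) =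
      (1 - x) * ∑ m ∈ range (l.length - 1), E t (m + 2) -
      2 / (l.length : ℝ) * ∑ m ∈ range (l.length - 1), ((m : ℝ) + 1) * E t (m + 2) := by
    rw [Finset.mul_sum, Finset.mul_sum, ← Finset.sum_sub_distrib]
    exact Finset.sum_congr rfl fun m _ => by ring
  rw [h3]
  set S := ∑ m ∈ range (l.length - 1), ((m : ℝ) + 1) * E t (m + 2)
  set T := ∑ m ∈ range (l.length - 1), E t (m + 2)
  have hx1 : 0 < 1 - x := by linarith
  have hS : S ≤ T / (1 - x) := by rw [le_div_iff₀ hx1]; linarith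
  have h4 : 2 / (l.length : ℝ) * S ≤ (1 - x) * T := by
    calc 2 / (l.length : ℝ) * S ≤ 2 / (l.length : ℝ) * (T / (1 - x)) :=
          mul_le_mul_of_nonneg_left hS (by positivity)
      _ ≤ (1 - x) * T := by
          rw [div_mul_div_comm, div_le_iff₀ (by positivity)]
          have h5 : 2 ≤ l.length * (1 - x) ^ 2 := by
            refine h.trans (mul_le_mul_of_nonneg_left ?_ hNR.le)
            exact pow_le_pow_left₀ (by linarith) (by linarith) 2
          nlinarith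
  have h6 : x ^ 2 ≤ q ^ 2 := pow_le_pow_left₀ hx0 hq 2
  linarith

/-- small `N` -/
theorem bound_small (l : List ℂ) (hl : 0 < l.length) {q : ℝ} (hq : E (l.map norm) 1 ≤ q) :
    1 - q ^ 2 - ∑ m ∈ range (l.length - 1),
      max 0 (2 / (l.length : ℝ) * ((m : ℝ) + 1) - (1 - q)) * q ^ (m + 2) ≤
      ‖(1 - E l 1) * W l‖ := by
  refine le_trans ?_ (norm_one_sub_mul_W l hl)
  set t := l.map norm with ht
  have htl : t.length = l.length := by rw [ht, List.length_map]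
  have htn := map_norm_nonneg l
  rw [← ht] at htn
  have h0 := real_rewrite t
  rw [htl] at h0
  rw [h0]
  set x := E t 1 with hx
  have hx0 : 0 ≤ x := E_real_nonneg t htn 1
  have h6 : x ^ 2 ≤ q ^ 2 := pow_le_pow_left₀ hx0 hq 2
  have h7 : -∑ m ∈ range (l.length - 1),
      max 0 (2 / (l.length : ℝ) * ((m : ℝ) + 1) - (1 - q)) * q ^ (m + 2) ≤
      ∑ m ∈ range (l.length - 1), ((1 - x) - 2 / (l.length : ℝ) * ((m : ℝ) + 1)) * E t (m + 2) := by
    rw [← Finset.sum_neg_distrib]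
    refine Finset.sum_le_sum fun m _ => ?_
    have hE : 0 ≤ E t (m + 2) := E_real_nonneg t htn _
    have hE2 : E t (m + 2) ≤ q ^ (m + 2) :=
      (E_le_pow t htn (m + 2)).trans (pow_le_pow_left₀ hx0 hq _)
    have h8 : -(max 0 (2 / (l.length : ℝ) * ((m : ℝ) + 1) - (1 - q))) ≤
        (1 - x) - 2 / (l.length : ℝ) * ((m : ℝ) + 1) := by
      have := le_max_right 0 (2 / (l.length : ℝ) * ((m : ℝ) + 1) - (1 - q))
      linarith
    have h9 : 0 ≤ max 0 (2 / (l.length : ℝ) * ((m : ℝ) + 1) - (1 - q)) := le_max_left _ _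
    calc -(max 0 (2 / (l.length : ℝ) * ((m : ℝ) + 1) - (1 - q)) * q ^ (m + 2))
        ≤ -(max 0 (2 / (l.length : ℝ) * ((m : ℝ) + 1) - (1 - q)) * E t (m + 2)) :=
          neg_le_neg (mul_le_mul_of_nonneg_left hE2 h9)
      _ = -(max 0 (2 / (l.length : ℝ) * ((m : ℝ) + 1) - (1 - q))) * E t (m + 2) := by ring
      _ ≤ _ := mul_le_mul_of_nonneg_right h8 hE
  linarith

/-- numerical check for the constant `31/20` -/
lemma numeric (N : ℕ) (h1 : 1 ≤ N) (h2 : N ≤ 15) :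
    ((20 / 31 : ℝ)) ^ (N + 1) < 1 - (20 / 31 : ℝ) ^ 2 - ∑ m ∈ range (N - 1),
      max 0 (2 / (N : ℝ) * ((m : ℝ) + 1) - (1 - 20 / 31)) * (20 / 31) ^ (m + 2) := by
  interval_cases N <;> norm_num [Finset.sum_range_succ, max_def]

/-- contradiction for large `N` -/
lemma numeric_large {N : ℕ} {x : ℝ} (hx0 : 0 ≤ x) (hx1 : x < 1) (h : 2 ≤ N * (1 - x) ^ 2) :
    x ^ (N + 1) < 1 - x ^ 2 := by
  set δ := 1 - x with hδ
  have hδ0 : 0 < δ := by linarith
  have hδ1 : δ ≤ 1 := by linarith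
  have h1 : x ^ (N + 1) * (1 + δ) ^ (N + 1) ≤ 1 := by
    rw [← mul_pow]
    apply pow_le_one₀
    · positivity
    · nlinarith
  have h2 : 1 + ((N + 1 : ℕ) : ℝ) * δ ≤ (1 + δ) ^ (N + 1) :=
    one_add_mul_le_pow (by linarith) (N + 1)
  have h3 : x ^ (N + 1) * (1 + ((N + 1 : ℕ) : ℝ) * δ) ≤ 1 :=
    (mul_le_mul_of_nonneg_left h2 (by positivity)).trans h1
  have h4 : 2 + δ ≤ δ * (1 + ((N + 1 : ℕ) : ℝ) * δ) := by
    push_cast
    nlinarith
  have h5 : x ^ (N + 1) * (2 + δ) ≤ δ := by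
    have h6 : 0 ≤ x ^ (N + 1) := by positivity
    nlinarith
  have h7 : 1 - x ^ 2 = δ * (2 - δ) := by rw [hδ]; ring
  rw [h7]
  have h8 : δ < δ * (2 - δ) * (2 + δ) := by nlinarith
  by_contra hcon
  push Not at hcon
  nlinarith

end Pool.Agent.Lib.MP_af3a4a_an
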