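import Mathlib

/-!
# The inequality of de Bruijn: `∑ |w_k| ≤ (1 - 1/n) ∑ |z_j|`
-/

namespace Pool.Agent.Lib.MP_af3a4a_an

open Finset Polynomial Matrix

/-- a unit eigenvector extended to a unitary matrix -/
lemma exists_unitary_eigen {d : ℕ} (A : Matrix (Fin (d + 1)) (Fin (d + 1)) ℂ) :
    ∃ (l : ℂ) (U : Matrix (Fin (d + 1)) (Fin (d + 1)) ℂ), Uᴴ * U = 1 ∧ U * Uᴴ = 1 ∧
      ∀ i, (Uᴴ * A * U) i 0 = if i = 0 then l else 0 := by
  obtain ⟨l, hl⟩ : ∃ l : ℂ, A.charpoly.IsRoot l := by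
    apply IsAlgClosed.exists_root
    rw [Matrix.charpoly_degree_eq_dim, Fintype.card_fin]
    exact_mod_cast Nat.succ_ne_zero d
  have hdet : (l • (1 : Matrix (Fin (d + 1)) (Fin (d + 1)) ℂ) - A).det = 0 := by
    have h1 : A.charpoly.eval l = (l • (1 : Matrix (Fin (d + 1)) (Fin (d + 1)) ℂ) - A).det := by
      rw [Matrix.eval_charpoly]
      congr 1
      ext i j
      simp [Matrix.scalar_apply, Matrix.diagonal_apply, Matrix.one_apply]
    rw [← h1]
    exact hl
  obtain ⟨v, hv0, hv⟩ := Matrix.exists_mulVec_eq_zero_iff.2 hdet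
  have hAv : A *ᵥ v = l • v := by
    rw [Matrix.sub_mulVec, sub_eq_zero, Matrix.smul_mulVec, Matrix.one_mulVec] at hv
    exact hv.symm
  let x : EuclideanSpace ℂ (Fin (d + 1)) := WithLp.toLp 2 v
  have hx0 : x ≠ 0 := by
    intro h
    apply hv0
    have := congrArg WithLp.ofLp h
    simpa [x] using this
  let f : EuclideanSpace ℂ (Fin (d + 1)) := ((‖x‖⁻¹ : ℝ) : ℂ) • x
  have hf : ‖f‖ = 1 := by
    simp only [f, norm_smul, Complex.norm_real, norm_inv, norm_norm]
    exact inv_mul_cancel₀ (norm_ne_zero_iff.2 hx0)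
  obtain ⟨b, hb⟩ := Orthonormal.exists_orthonormalBasis_extension_of_card_eq
    (𝕜 := ℂ) (E := EuclideanSpace ℂ (Fin (d + 1))) (ι := Fin (d + 1)) (by simp)
    (v := fun _ => f) (s := {0}) (by
      constructor
      · rintro ⟨i, hi⟩
        simpa using hf
      · rintro ⟨i, hi⟩ ⟨j, hj⟩ hij
        exfalso
        apply hij
        simp only [Set.mem_singleton_iff] at hi hj
        subst hi; subst hj; rfl)
  have hb0 : b 0 = f := hb 0 rfl
  let U : Matrix (Fin (d + 1)) (Fin (d + 1)) ℂ := Matrix.of fun i j => b j i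
  have hU : Uᴴ * U = 1 := by
    ext i j
    rw [Matrix.mul_apply, Matrix.one_apply]
    have h1 : inner ℂ (b i) (b j) = if i = j then (1 : ℂ) else 0 :=
      (orthonormal_iff_ite.1 b.orthonormal) i j
    rw [← h1, PiLp.inner_apply]
    refine Finset.sum_congr rfl fun k _ => ?_
    simp [U, Matrix.conjTranspose_apply, mul_comm]
  refine ⟨l, U, hU, mul_eq_one_comm.1 hU, fun i => ?_⟩
  have h2 : ∀ k, (A * U) k 0 = l * U k 0 := by
    intro k
    have h3 : ∀ j, U j 0 = ((‖x‖⁻¹ : ℝ) : ℂ) * v j := by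
      intro j
      simp [U, hb0, f, x]
    rw [Matrix.mul_apply]
    simp_rw [h3]
    have h4 : ∑ j, A k j * (((‖x‖⁻¹ : ℝ) : ℂ) * v j) = ((‖x‖⁻¹ : ℝ) : ℂ) * (A *ᵥ v) k := by
      rw [Matrix.mulVec, dotProduct, Finset.mul_sum]
      exact Finset.sum_congr rfl fun j _ => by ring
    rw [h4, hAv, Pi.smul_apply, smul_eq_mul]
    ring
  rw [Matrix.mul_assoc, Matrix.mul_apply]
  simp_rw [h2]
  have h5 : ∑ k, Uᴴ i k * (l * U k 0) = l * (Uᴴ * U) i 0 := by
    rw [Matrix.mul_apply, Finset.mul_sum]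
    exact Finset.sum_congr rfl fun j _ => by ring
  rw [h5, hU, Matrix.one_apply]
  split_ifs <;> simp

lemma charpoly_of_first_column {d : ℕ} (B : Matrix (Fin (d + 1)) (Fin (d + 1)) ℂ) (l : ℂ)
    (hB : ∀ i, B i 0 = if i = 0 then l else 0) :
    B.charpoly = (X - C l) * (B.submatrix Fin.succ Fin.succ).charpoly := by
  rw [Matrix.charpoly, Matrix.det_succ_column_zero, Fin.sum_univ_succ]
  have h1 : ∀ i : Fin d, (-1 : ℂ[X]) ^ ((i.succ : Fin (d + 1)) : ℕ) * (charmatrix B) i.succ 0 *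
      ((charmatrix B).submatrix i.succ.succAbove Fin.succ).det = 0 := by
    intro i
    have : (charmatrix B) i.succ 0 = 0 := by
      rw [charmatrix_apply_ne _ _ _ (Fin.succ_ne_zero i), hB, if_neg (Fin.succ_ne_zero i)]
      simp
    rw [this]; ring
  rw [Finset.sum_eq_zero (fun i _ => h1 i), add_zero]
  have h2 : (charmatrix B) 0 0 = X - C l := by
    rw [charmatrix_apply_eq, hB, if_pos rfl]
  have h3 : (charmatrix B).submatrix (Fin.succAbove 0) Fin.succ =
      charmatrix (B.submatrix Fin.succ Fin.succ) := by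
    ext1 i j
    rcases eq_or_ne i j with h | h
    · subst h
      simp [charmatrix_apply_eq]
    · rw [charmatrix_apply_ne _ _ _ h]
      simp only [Matrix.submatrix_apply, Fin.zero_succAbove]
      rw [charmatrix_apply_ne _ _ _ (fun hh => h (Fin.succ_injective _ hh))]
  rw [h2, h3, Matrix.charpoly]
  simp

/-- trace norm bound for the eigenvalues of `V D V^*` -/
theorem sum_roots_le {n : ℕ} (z : Fin n → ℂ) : ∀ (d : ℕ) (V : Matrix (Fin d) (Fin n) ℂ),
    ((V * diagonal z * Vᴴ).charpoly.roots.map (fun x => ‖x‖)).sum ≤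
      ∑ j, ‖z j‖ * ∑ i, ‖V i j‖ ^ 2 := by
  intro d
  induction d with
  | zero =>
    intro V
    have h1 : (V * diagonal z * Vᴴ).charpoly = 1 := by
      rw [Matrix.charpoly, Matrix.det_isEmpty]
    rw [h1]
    simp
  | succ d ih =>
    intro V
    set A := V * diagonal z * Vᴴ with hA
    obtain ⟨l, U, hU1, hU2, hU⟩ := exists_unitary_eigen A
    set Y : Matrix (Fin (d + 1)) (Fin n) ℂ := Uᴴ * V with hY
    have hB : Uᴴ * A * U = Y * diagonal z * Yᴴ := by
      rw [hA, hY, Matrix.conjTranspose_mul, Matrix.conjTranspose_conjTranspose]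
      simp only [Matrix.mul_assoc]
    have hcp : A.charpoly = (Uᴴ * A * U).charpoly := by
      rw [Matrix.charpoly_mul_comm, ← Matrix.mul_assoc, hU2, Matrix.one_mul]
    have h1 := charpoly_of_first_column (Uᴴ * A * U) l hU
    have h2 : (Uᴴ * A * U).submatrix Fin.succ Fin.succ =
        Y.submatrix Fin.succ id * diagonal z * (Y.submatrix Fin.succ id)ᴴ := by
      rw [hB]
      ext i j
      simp [Matrix.mul_apply, Matrix.diagonal_apply]
    rw [hcp, h1, h2, Polynomial.roots_mul (by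
      apply mul_ne_zero (X_sub_C_ne_zero l)
      exact (Matrix.charpoly_monic _).ne_zero), roots_X_sub_C, Multiset.map_add,
      Multiset.sum_add, Multiset.map_singleton, Multiset.sum_singleton]
    have h3 := ih (Y.submatrix Fin.succ id)
    have h4 : l = ∑ j, z j * ((‖Y 0 j‖ ^ 2 : ℝ) : ℂ) := by
      have h5 := hU 0
      rw [if_pos rfl, hB, Matrix.mul_apply] at h5
      rw [← h5]
      refine Finset.sum_congr rfl fun j _ => ?_
      rw [Matrix.mul_diagonal, Matrix.conjTranspose_apply]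
      have h6 : Y 0 j * star (Y 0 j) = ((‖Y 0 j‖ ^ 2 : ℝ) : ℂ) := by
        rw [RCLike.star_def, Complex.mul_conj, Complex.normSq_eq_norm_sq]
      rw [← h6]
      ring
    have h5 : ‖l‖ ≤ ∑ j, ‖z j‖ * ‖Y 0 j‖ ^ 2 := by
      rw [h4]
      refine (norm_sum_le _ _).trans (Finset.sum_le_sum fun j _ => ?_)
      rw [norm_mul, Complex.norm_real, Real.norm_of_nonneg (by positivity)]
    have h6 : ∀ j, ∑ i, ‖Y i j‖ ^ 2 = ∑ i, ‖V i j‖ ^ 2 := by
      intro j
      have h7 : ∀ (M : Matrix (Fin (d + 1)) (Fin n) ℂ),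
          (Mᴴ * M) j j = ((∑ i, ‖M i j‖ ^ 2 : ℝ) : ℂ) := by
        intro M
        rw [Matrix.mul_apply]
        push_cast
        refine Finset.sum_congr rfl fun i _ => ?_
        rw [Matrix.conjTranspose_apply, RCLike.star_def, mul_comm, Complex.mul_conj,
          Complex.normSq_eq_norm_sq]
        push_cast
        rfl
      have h8 : Yᴴ * Y = Vᴴ * V := by
        rw [hY, Matrix.conjTranspose_mul, Matrix.conjTranspose_conjTranspose, Matrix.mul_assoc,
          ← Matrix.mul_assoc U, hU2, Matrix.one_mul]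
      have h9 := h7 Y
      rw [h8, h7 V] at h9
      exact_mod_cast h9.symm
    calc ‖l‖ + ((Y.submatrix Fin.succ id * diagonal z *
          (Y.submatrix Fin.succ id)ᴴ).charpoly.roots.map (fun x => ‖x‖)).sum
        ≤ ∑ j, ‖z j‖ * ‖Y 0 j‖ ^ 2 + ∑ j, ‖z j‖ * ∑ i : Fin d, ‖Y i.succ j‖ ^ 2 := by
          refine add_le_add h5 (h3.trans (le_of_eq ?_))
          simp
      _ = ∑ j, ‖z j‖ * ∑ i, ‖V i j‖ ^ 2 := by
          rw [← Finset.sum_add_distrib]
          refine Finset.sum_congr rfl fun j _ => ?_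
          rw [← h6 j, Fin.sum_univ_succ]
          ring

lemma conjTranspose_mul_self_diag {d n : ℕ} (M : Matrix (Fin d) (Fin n) ℂ) (j : Fin n) :
    (Mᴴ * M) j j = ((∑ i, ‖M i j‖ ^ 2 : ℝ) : ℂ) := by
  rw [Matrix.mul_apply]
  push_cast
  refine Finset.sum_congr rfl fun i _ => ?_
  rw [Matrix.conjTranspose_apply, RCLike.star_def, mul_comm, Complex.mul_conj,
    Complex.normSq_eq_norm_sq]
  push_cast
  rfl

/-- the projection onto the vectors with sum zero -/
noncomputable def P (n : ℕ) : Matrix (Fin n) (Fin n) ℂ :=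
  1 - Matrix.of fun _ _ => (1 / (n : ℂ))

lemma P_conjTranspose (n : ℕ) : (P n)ᴴ = P n := by
  ext i j
  simp [P, Matrix.conjTranspose_apply, Matrix.one_apply, eq_comm, apply_ite]

lemma P_mul_P (n : ℕ) (hn : 0 < n) : P n * P n = P n := by
  have hn' : (n : ℂ) ≠ 0 := by exact_mod_cast hn.ne'
  have h1 : (Matrix.of fun (_ _ : Fin n) => (1 / (n : ℂ))) *
      (Matrix.of fun (_ _ : Fin n) => (1 / (n : ℂ))) = Matrix.of fun _ _ => (1 / (n : ℂ)) := by
    ext i j
    rw [Matrix.mul_apply]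
    simp
    field_simp
  rw [P, sub_mul, mul_sub, mul_sub, h1]
  simp

lemma eval_derivative_prod {n : ℕ} (z : Fin n → ℂ) (x : ℂ) (hx : ∀ j, x ≠ z j) :
    (derivative (∏ j, (X - C (z j)))).eval x = (∏ j, (x - z j)) * ∑ j, 1 / (x - z j) := by
  rw [Polynomial.derivative_prod_finset, Polynomial.eval_finsetSum, Finset.mul_sum]
  refine Finset.sum_congr rfl fun j _ => ?_
  rw [eval_mul, eval_prod, derivative_sub, derivative_X, derivative_C, sub_zero, eval_one, mul_one]
  have h1 : x - z j ≠ 0 := sub_ne_zero.2 (hx j)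
  rw [← Finset.mul_prod_erase Finset.univ (fun j => x - z j) (Finset.mem_univ j)]
  field_simp
  simp

lemma charpoly_P (n : ℕ) (hn : 0 < n) (z : Fin n → ℂ) :
    C (n : ℂ) * (P n * diagonal z * (P n)ᴴ).charpoly =
      X * derivative (∏ j, (X - C (z j))) := by
  have hn' : (n : ℂ) ≠ 0 := by exact_mod_cast hn.ne'
  have h1 : (P n * diagonal z * (P n)ᴴ).charpoly = (P n * diagonal z).charpoly := by
    rw [P_conjTranspose, Matrix.charpoly_mul_comm, ← Matrix.mul_assoc, P_mul_P n hn]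
  rw [h1]
  apply Polynomial.eq_of_infinite_eval_eq
  refine Set.Infinite.mono (s := (Set.range z)ᶜ) ?_ (Set.Finite.infinite_compl (Set.finite_range z))
  intro x hx
  have hx' : ∀ j, x ≠ z j := fun j h => hx ⟨j, h.symm⟩
  have hx2 : ∀ j, x - z j ≠ 0 := fun j => sub_ne_zero.2 (hx' j)
  rw [Set.mem_ofPred_eq, eval_mul, eval_mul, eval_C, eval_X, eval_derivative_prod z x hx',
    Matrix.eval_charpoly]
  have h2 : Matrix.scalar (Fin n) x - P n * diagonal z =
      diagonal (fun j => x - z j) +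
      replicateCol Unit (fun _ : Fin n => (1 / (n : ℂ))) * replicateRow Unit z := by
    ext i j
    rw [P, sub_mul, one_mul]
    simp only [Matrix.sub_apply, Matrix.add_apply, Matrix.scalar_apply, Matrix.diagonal_apply,
      Matrix.mul_apply, Matrix.of_apply, Matrix.replicateCol_apply, Matrix.replicateRow_apply]
    rcases eq_or_ne i j with h | h
    · subst h
      simp
      ring
    · simp [h]
  have hdet : (diagonal (fun j => x - z j)).det = ∏ j, (x - z j) := Matrix.det_diagonal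
  have hunit : IsUnit (diagonal (fun j => x - z j)).det := by
    rw [hdet]
    exact (Finset.prod_ne_zero_iff.2 fun j _ => hx2 j).isUnit
  rw [h2, Matrix.det_add_replicateCol_mul_replicateRow hunit, hdet]
  have hinv : (diagonal (fun j => x - z j))⁻¹ = diagonal (fun j => (x - z j)⁻¹) := by
    apply Matrix.inv_eq_right_inv
    rw [Matrix.diagonal_mul_diagonal]
    ext i j
    rcases eq_or_ne i j with h | h
    · subst h; simp [hx2]
    · simp [h]
  have h3 : (1 + replicateRow Unit z * (diagonal (fun j => x - z j))⁻¹ *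
      replicateCol Unit (fun _ : Fin n => (1 / (n : ℂ)))).det =
      1 + ∑ j, z j * (x - z j)⁻¹ * (1 / n) := by
    rw [hinv, Matrix.det_unique]
    simp [Matrix.mul_apply, Matrix.diagonal_apply]
  rw [h3]
  have h4 : (n : ℂ) * (1 + ∑ j, z j * (x - z j)⁻¹ * (1 / n)) = x * ∑ j, 1 / (x - z j) := by
    rw [mul_add, mul_one, Finset.mul_sum, Finset.mul_sum]
    have h5 : (n : ℂ) = ∑ _j : Fin n, (1 : ℂ) := by simp
    nth_rewrite 1 [h5]
    rw [← Finset.sum_add_distrib]
    refine Finset.sum_congr rfl fun j _ => ?_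
    have := hx2 j
    field_simp
    ring
  calc (n : ℂ) * ((∏ j, (x - z j)) * (1 + ∑ j, z j * (x - z j)⁻¹ * (1 / n)))
      = (∏ j, (x - z j)) * ((n : ℂ) * (1 + ∑ j, z j * (x - z j)⁻¹ * (1 / n))) := by ring
    _ = _ := by rw [h4]; ring

/-- **de Bruijn's inequality** -/
theorem sum_critical_le (n : ℕ) (hn : 0 < n) (z : Fin n → ℂ) :
    ((derivative (∏ j, (X - C (z j)))).roots.map (fun x => ‖x‖)).sum ≤
      (1 - 1 / n) * ∑ j, ‖z j‖ := by
  have hn' : (n : ℂ) ≠ 0 := by exact_mod_cast hn.ne'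
  have h1 := charpoly_P n hn z
  have h2 := sum_roots_le z n (P n)
  have h3 : ∀ j, ∑ i, ‖P n i j‖ ^ 2 = 1 - 1 / (n : ℝ) := by
    intro j
    have h4 := conjTranspose_mul_self_diag (P n) j
    rw [P_conjTranspose, P_mul_P n hn] at h4
    have h5 : (P n) j j = ((1 - 1 / (n : ℝ) : ℝ) : ℂ) := by
      simp [P]
    rw [h5] at h4
    exact_mod_cast h4.symm
  have h4 : (X * derivative (∏ j, (X - C (z j)))).roots =
      (P n * diagonal z * (P n)ᴴ).charpoly.roots := by
    rw [← h1, Polynomial.roots_C_mul _ hn']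
  have hne : X * derivative (∏ j, (X - C (z j))) ≠ 0 := by
    rw [← h1]
    exact mul_ne_zero (by simpa using hn') (Matrix.charpoly_monic _).ne_zero
  rw [Polynomial.roots_mul hne, roots_X] at h4
  rw [← h4, Multiset.map_add, Multiset.sum_add, Multiset.map_singleton, Multiset.sum_singleton,
    norm_zero, zero_add] at h2
  refine h2.trans (le_of_eq ?_)
  simp_rw [h3]
  rw [← Finset.sum_mul]
  ring

end Pool.Agent.Lib.MP_af3a4a_an
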