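import Pool.Agent.Lib.MP_af3a4a_an.Sym

/-!
# The integral formula
-/

namespace Pool.Agent.Lib.MP_af3a4a_an

open Finset Polynomial

lemma prod_expand {R : Type*} [CommRing R] (l : List R) (s x : R) :
    (l.map (fun a => s + x * a)).prod =
      ∑ m ∈ range (l.length + 1), e l m * (x ^ m * s ^ (l.length - m)) := by
  induction l with
  | nil => simp
  | cons a l ih =>
    rw [List.map_cons, List.prod_cons, ih, List.length_cons,
      Finset.sum_range_succ' _ (l.length + 1)]
    have h1 : ∑ m ∈ range (l.length + 1),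
        e (a :: l) (m + 1) * (x ^ (m + 1) * s ^ (l.length + 1 - (m + 1))) =
        ∑ m ∈ range (l.length + 1), e l (m + 1) * (x ^ (m + 1) * s ^ (l.length - m)) +
        x * a * ∑ m ∈ range (l.length + 1), e l m * (x ^ m * s ^ (l.length - m)) := by
      rw [Finset.mul_sum, ← Finset.sum_add_distrib]
      refine Finset.sum_congr rfl fun m _ => ?_
      rw [e_cons, Nat.add_sub_add_right]
      ring
    have h2 : s * ∑ m ∈ range (l.length + 1), e l m * (x ^ m * s ^ (l.length - m)) =
        ∑ m ∈ range (l.length + 1), e l (m + 1) * (x ^ (m + 1) * s ^ (l.length - m)) +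
        s ^ (l.length + 1) := by
      rw [Finset.sum_range_succ (fun m => e l (m + 1) * (x ^ (m + 1) * s ^ (l.length - m))),
        e_of_gt l (l.length + 1) (by omega), zero_mul, add_zero,
        Finset.sum_range_succ' _ l.length, mul_add, Finset.mul_sum]
      congr 1
      · refine Finset.sum_congr rfl fun m hm => ?_
        have hm' := Finset.mem_range.1 hm
        obtain ⟨j, hj⟩ : ∃ j, l.length = m + 1 + j := ⟨l.length - (m + 1), by omega⟩
        rw [hj, Nat.add_sub_cancel_left, show m + 1 + j - m = j + 1 by omega]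
        ring
      · simp
        ring
    rw [add_mul, h2, h1]
    simp
    ring

lemma beta_nat (k : ℕ) : ∀ m : ℕ, ∫ x in (0 : ℝ)..1, x ^ m * (1 - x) ^ k =
    1 / ((m + k + 1 : ℝ) * (m + k).choose m) := by
  induction k with
  | zero =>
    intro m
    simp
  | succ k ih =>
    intro m
    have h1 : ∫ x in (0 : ℝ)..1, ((m + 1 : ℝ) * (x ^ m * (1 - x) ^ (k + 1)) -
        (k + 1 : ℝ) * (x ^ (m + 1) * (1 - x) ^ k)) = 0 := by
      have h2 : ∀ x ∈ Set.uIcc (0 : ℝ) 1, HasDerivAt (fun x : ℝ => x ^ (m + 1) * (1 - x) ^ (k + 1))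
          ((m + 1 : ℝ) * (x ^ m * (1 - x) ^ (k + 1)) -
            (k + 1 : ℝ) * (x ^ (m + 1) * (1 - x) ^ k)) x := by
        intro x _
        have h3 : HasDerivAt (fun x : ℝ => x ^ (m + 1)) (((m + 1 : ℕ) : ℝ) * x ^ m) x := by
          simpa using hasDerivAt_pow (m + 1) x
        have h4 : HasDerivAt (fun x : ℝ => (1 - x) ^ (k + 1))
            (((k + 1 : ℕ) : ℝ) * (1 - x) ^ k * (-1)) x := by
          have h5 : HasDerivAt (fun x : ℝ => 1 - x) (-1) x := by
            simpa using (hasDerivAt_id x).const_sub 1
          simpa using h5.fun_pow (k + 1)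
        convert! h3.mul h4 using 1
        push_cast
        ring
      rw [intervalIntegral.integral_eq_sub_of_hasDerivAt h2]
      · simp
      · apply Continuous.intervalIntegrable
        fun_prop
    rw [intervalIntegral.integral_sub, intervalIntegral.integral_const_mul,
      intervalIntegral.integral_const_mul, ih (m + 1)] at h1
    · have h2 : ((m + k + 1).choose (m + 1) : ℝ) * (m + 1) = (m + k + 1).choose m * (k + 1) := by
        have := Nat.choose_succ_right_eq (m + k + 1) m
        rw [show m + k + 1 - m = k + 1 by omega] at this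
        exact_mod_cast this
      have hc1 : (0 : ℝ) < (m + k + 1).choose (m + 1) :=
        Nat.cast_pos.2 (Nat.choose_pos (by omega))
      have hc2 : (0 : ℝ) < (m + k + 1).choose m := Nat.cast_pos.2 (Nat.choose_pos (by omega))
      have hm : (0 : ℝ) < m + 1 := by positivity
      have h3 : ∫ x in (0 : ℝ)..1, x ^ m * (1 - x) ^ (k + 1) =
          (k + 1) / (m + 1) * (1 / (((m + 1 : ℕ) + k + 1 : ℝ) * (m + 1 + k).choose (m + 1))) := by
        field_simp
        field_simp at h1
        linarith
      rw [h3, show m + 1 + k = m + k + 1 by ring, show m + (k + 1) = m + k + 1 by ring]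
      push_cast
      rw [div_mul_div_comm, div_eq_div_iff (by positivity) (by positivity)]
      calc (↑k + 1) * 1 * ((↑m + (↑k + 1) + 1) * ((m + k + 1).choose m : ℝ))
          = (↑m + (↑k + 1) + 1) * (((m + k + 1).choose m : ℝ) * (k + 1)) := by ring
        _ = (↑m + (↑k + 1) + 1) * (((m + k + 1).choose (m + 1) : ℝ) * (m + 1)) := by rw [h2]
        _ = _ := by ring
    · apply Continuous.intervalIntegrable; fun_prop
    · apply Continuous.intervalIntegrable; fun_prop

lemma integral_prod (l : List ℂ) :
    ((l.length : ℂ) + 1) * ∫ x in (0 : ℝ)..1,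
      (l.map (fun a => (1 - (x : ℂ)) + (x : ℂ) * a)).prod = W l := by
  have h1 : ∀ x : ℝ, (l.map (fun a => (1 - (x : ℂ)) + (x : ℂ) * a)).prod =
      ∑ m ∈ range (l.length + 1), e l m * (((x ^ m * (1 - x) ^ (l.length - m) : ℝ)) : ℂ) := by
    intro x
    rw [prod_expand]
    refine Finset.sum_congr rfl fun m _ => ?_
    push_cast
    rfl
  simp_rw [h1]
  rw [intervalIntegral.integral_finsetSum]
  · rw [W, Finset.mul_sum]
    refine Finset.sum_congr rfl fun m hm => ?_
    have hm' : m ≤ l.length := by
      have := Finset.mem_range.1 hm; omega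
    rw [intervalIntegral.integral_const_mul, intervalIntegral.integral_ofReal, beta_nat]
    have h2 : m + (l.length - m) = l.length := by omega
    have h3 : (m : ℝ) + ((l.length - m : ℕ) : ℝ) = (l.length : ℝ) := by
      rw [← Nat.cast_add, h2]
    rw [h2, h3, E]
    push_cast
    have h4 : (l.length : ℂ) + 1 ≠ 0 := by
      exact_mod_cast Nat.succ_ne_zero l.length
    have h5 : (l.length.choose m : ℂ) ≠ 0 := by exact_mod_cast (Nat.choose_pos hm').ne'
    field_simp
  · intro m _
    apply Continuous.intervalIntegrable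
    fun_prop

/-- the values of a polynomial at `0` and at a point `a` that is not a critical point -/
theorem eval_zero_sub (F : ℂ[X]) (a : ℂ) (L : List ℂ) (c : ℂ)
    (hF : derivative F = C c * (L.map (fun w => X - C w)).prod) (ha : ∀ w ∈ L, w ≠ a) :
    (L.length + 1) * (F.eval 0 - F.eval a) =
      -a * c * (L.map (fun w => a - w)).prod * W (L.map (fun w => w / (w - a))) := by
  have h1 : ∀ x ∈ Set.uIcc (0 : ℝ) 1, HasDerivAt (fun x : ℝ => F.eval ((1 - (x : ℂ)) * a))
      ((derivative F).eval ((1 - (x : ℂ)) * a) * (-a)) x := by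
    intro x _
    have h2 : HasDerivAt (fun z : ℂ => F.eval ((1 - z) * a))
        ((derivative F).eval ((1 - (x : ℂ)) * a) * (-a)) (x : ℂ) := by
      have h3 : HasDerivAt (fun z : ℂ => (1 - z) * a) (-a) (x : ℂ) := by
        simpa using ((hasDerivAt_id (x : ℂ)).const_sub 1).mul_const a
      exact (F.hasDerivAt ((1 - (x : ℂ)) * a)).comp (x : ℂ) h3
    exact h2.comp_ofReal
  have h2 := intervalIntegral.integral_eq_sub_of_hasDerivAt h1 (by
    apply Continuous.intervalIntegrable
    fun_prop)
  simp only [Complex.ofReal_one, sub_self, zero_mul, Complex.ofReal_zero, sub_zero, one_mul] at h2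
  rw [← h2]
  have h3 : ∀ x : ℝ, (derivative F).eval ((1 - (x : ℂ)) * a) * (-a) =
      (-a * c * (L.map (fun w => a - w)).prod) *
      ((L.map (fun w => w / (w - a))).map (fun b => (1 - (x : ℂ)) + (x : ℂ) * b)).prod := by
    intro x
    rw [hF, eval_mul, eval_C, eval_list_prod, List.map_map, List.map_map]
    have h4 : (L.map ((eval ((1 - (x : ℂ)) * a)) ∘ fun w => X - C w)).prod =
        (L.map (fun w => a - w)).prod *
        (L.map ((fun b => (1 - (x : ℂ)) + (x : ℂ) * b) ∘ fun w => w / (w - a))).prod := by
      rw [← List.prod_map_mul]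
      congr 1
      refine List.map_congr_left fun w hw => ?_
      have h5 : w - a ≠ 0 := sub_ne_zero.2 (ha w hw)
      simp only [Function.comp, eval_sub, eval_X, eval_C]
      field_simp
      ring
    rw [h4]
    ring
  simp_rw [h3]
  rw [intervalIntegral.integral_const_mul]
  have h6 := integral_prod (L.map (fun w => w / (w - a)))
  rw [List.length_map] at h6
  rw [← h6]
  ring

end Pool.Agent.Lib.MP_af3a4a_an
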