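import Pool.Agent.Lib.MP_af3a4a_an.Bound
import Pool.Agent.Lib.MP_af3a4a_an.Integral
import Pool.Agent.Lib.MP_af3a4a_an.DeBruijn

/-!
# The main estimate
-/

namespace Pool.Agent.Lib.MP_af3a4a_an

open Finset Polynomial

lemma e_length {R : Type*} [CommSemiring R] (l : List R) : e l l.length = l.prod := by
  induction l with
  | nil => simp
  | cons x l ih =>
    rw [List.length_cons, e_cons, e_of_gt l _ (by omega), ih, List.prod_cons, zero_add]

lemma amgm (n : ℕ) (x : Fin n → ℝ) (hx : ∀ i, 0 ≤ x i) : ∏ i, x i ≤ (1 / n * ∑ i, x i) ^ n := by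
  have h1 := E_le_pow (List.ofFn x) (by
    intro y hy
    obtain ⟨i, rfl⟩ := List.mem_ofFn.1 hy
    exact hx i) n
  rw [E_one, E] at h1
  have h2 : e (List.ofFn x) n = (List.ofFn x).prod := by
    have := e_length (List.ofFn x)
    rwa [List.length_ofFn] at this
  rw [h2, List.length_ofFn, Nat.choose_self, Nat.cast_one, div_one, List.prod_ofFn,
    List.sum_ofFn] at h1
  rwa [one_div, inv_mul_eq_div]

section poly

variable {n : ℕ} (z : Fin n → ℂ)

lemma nd_prod : (∏ j, (X - C (z j))).natDegree = n := by
  rw [natDegree_prod_of_monic _ _ fun j _ => monic_X_sub_C (z j)]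
  simp

lemma monic_prod' : (∏ j, (X - C (z j)) : ℂ[X]).Monic :=
  Polynomial.monic_prod_of_monic _ _ fun j _ => monic_X_sub_C (z j)

lemma nd_deriv : (derivative (∏ j, (X - C (z j)))).natDegree = n - 1 := by
  rw [Polynomial.natDegree_derivative, nd_prod]

lemma lc_deriv (hn : 0 < n) :
    (derivative (∏ j, (X - C (z j)))).leadingCoeff = (n : ℂ) := by
  rw [leadingCoeff, nd_deriv, coeff_derivative]
  have h1 : n - 1 + 1 = n := by omega
  rw [h1]
  have h2 := monic_prod' z
  rw [Monic, leadingCoeff, nd_prod] at h2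
  rw [h2, one_mul]
  have h3 : (((n - 1 : ℕ) : ℂ)) + 1 = ((n - 1 + 1 : ℕ) : ℂ) := by push_cast; rfl
  rw [h3, h1]

lemma derivative_eq (hn : 0 < n) : derivative (∏ j, (X - C (z j))) =
    C (n : ℂ) * ((derivative (∏ j, (X - C (z j)))).roots.toList.map (fun w => X - C w)).prod := by
  have h1 := (IsAlgClosed.splits (derivative (∏ j, (X - C (z j))))).eq_prod_roots
  rw [lc_deriv z hn] at h1
  have h2 : ((derivative (∏ j, (X - C (z j)))).roots.toList.map (fun w => X - C w)).prod =
      ((derivative (∏ j, (X - C (z j)))).roots.map (fun w => X - C w)).prod := by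
    conv_rhs => rw [← Multiset.coe_toList (derivative (∏ j, (X - C (z j)))).roots]
    rw [Multiset.map_coe, Multiset.prod_coe]
  rw [h2]
  exact h1

lemma length_roots : (derivative (∏ j, (X - C (z j)))).roots.toList.length = n - 1 := by
  rw [Multiset.length_toList]
  have := (IsAlgClosed.splits (derivative (∏ j, (X - C (z j))))).natDegree_eq_card_roots
  rw [← this, nd_deriv]

/-- the main estimate -/
theorem core (hn : 2 ≤ n) (k : Fin n) (r : ℝ) (hr : 0 < r)
    (hcrit : ∀ w, (derivative (∏ j, (X - C (z j)))).IsRoot w → r ≤ ‖z k - w‖) :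
    ∃ l : List ℂ, l.length = n - 1 ∧ E (l.map norm) 1 ≤ (1 / n * ∑ j, ‖z j‖) / r ∧
      ‖(1 - E l 1) * W l‖ ≤ ((1 / n * ∑ j, ‖z j‖) / r) ^ n := by
  set F : ℂ[X] := ∏ j, (X - C (z j)) with hF
  set L := (derivative F).roots.toList with hL
  set a := z k with ha
  have hn0 : 0 < n := by omega
  have hnR : (0 : ℝ) < n := Nat.cast_pos.2 hn0
  have hN : 0 < n - 1 := by omega
  have hlen : L.length = n - 1 := length_roots z
  have hmem : ∀ w ∈ L, r ≤ ‖a - w‖ := by
    intro w hw
    apply hcrit
    rw [hL, Multiset.mem_toList] at hw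
    exact isRoot_of_mem_roots hw
  have hmem' : ∀ w ∈ L, r ≤ ‖w - a‖ := fun w hw => by
    rw [norm_sub_rev]; exact hmem w hw
  have hne : ∀ w ∈ L, w ≠ a := by
    intro w hw h
    have := hmem w hw
    rw [h, sub_self, norm_zero] at this
    linarith
  have hNR : (0 : ℝ) < ((n - 1 : ℕ) : ℝ) := Nat.cast_pos.2 hN
  have hNcast : (((n - 1 : ℕ) : ℝ)) = n - 1 := by
    rw [Nat.cast_sub (by omega)]; simp
  refine ⟨L.map (fun w => w / (w - a)), by rw [List.length_map, hlen], ?_, ?_⟩
  · -- the mean of `|a_k|`
    rw [E_one, List.length_map, List.length_map, hlen, List.map_map]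
    have h1 : (L.map (norm ∘ fun w => w / (w - a))).sum ≤ (L.map (fun w => ‖w‖ / r)).sum := by
      apply List.sum_le_sum
      intro w hw
      simp only [Function.comp, norm_div]
      exact div_le_div_of_nonneg_left (norm_nonneg _) hr (hmem' w hw)
    have h2 : (L.map (fun w => ‖w‖ / r)).sum = (L.map (fun w => ‖w‖)).sum / r := by
      rw [div_eq_mul_inv, ← List.sum_map_mul_right]
      rfl
    have h3 : (L.map (fun w => ‖w‖)).sum ≤ (1 - 1 / n) * ∑ j, ‖z j‖ := by
      have h4 := sum_critical_le n hn0 z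
      have h5 : (L.map (fun w => ‖w‖)).sum = ((derivative F).roots.map (fun x => ‖x‖)).sum := by
        conv_rhs => rw [← Multiset.coe_toList (derivative F).roots]
        rw [Multiset.map_coe, Multiset.sum_coe]
      rw [h5]
      exact h4
    rw [h2] at h1
    rw [div_le_iff₀ hNR]
    refine h1.trans ?_
    rw [div_mul_eq_mul_div]
    apply div_le_div_of_nonneg_right _ hr.le
    refine h3.trans (le_of_eq ?_)
    rw [hNcast]
    field_simp
  · have h1 := eval_zero_sub F a L n (derivative_eq z hn0) hne
    have h2 : F.eval a = 0 := by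
      rw [hF, eval_prod]
      exact Finset.prod_eq_zero (Finset.mem_univ k) (by simp [ha])
    have h3 : (L.length : ℂ) + 1 = n := by
      rw [hlen]
      have : (((n - 1 : ℕ) : ℂ)) + 1 = ((n - 1 + 1 : ℕ) : ℂ) := by push_cast; rfl
      rw [this, Nat.sub_add_cancel (by omega)]
    have hnC : (n : ℂ) ≠ 0 := by exact_mod_cast hn0.ne'
    rw [h2, sub_zero, h3] at h1
    set l := L.map (fun w => w / (w - a)) with hl
    have h4 : F.eval 0 = -a * (L.map (fun w => a - w)).prod * W l := by
      have h5 : (n : ℂ) * F.eval 0 = n * (-a * (L.map (fun w => a - w)).prod * W l) := by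
        rw [h1]; ring
      exact mul_left_cancel₀ hnC h5
    have h5 : ‖F.eval 0‖ ≤ (1 / n * ∑ j, ‖z j‖) ^ n := by
      rw [hF, eval_prod, norm_prod]
      simp only [eval_sub, eval_X, eval_C, zero_sub, norm_neg]
      exact amgm n _ fun i => norm_nonneg _
    -- lower bound of the product
    have h6 : r ^ (n - 1) ≤ ‖(L.map (fun w => a - w)).prod‖ := by
      have h7 : ∀ M : List ℂ, (∀ w ∈ M, r ≤ ‖a - w‖) →
          r ^ M.length ≤ ‖(M.map (fun w => a - w)).prod‖ := by
        intro M
        induction M with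
        | nil => intro _; simp
        | cons x M ih =>
          intro hM
          rw [List.length_cons, List.map_cons, List.prod_cons, norm_mul, pow_succ']
          exact mul_le_mul (hM x (by simp)) (ih fun w hw => hM w (by simp [hw]))
            (by positivity) (norm_nonneg _)
      rw [← hlen]
      exact h7 L hmem
    -- `|1 - E_1| ≤ |a| / r`
    have h7 : ‖1 - E l 1‖ ≤ ‖a‖ / r := by
      have h8 : ∀ M : List ℂ, (∀ w ∈ M, r ≤ ‖w - a‖) →
          ‖(M.length : ℂ) - (M.map (fun w => w / (w - a))).sum‖ ≤ M.length * (‖a‖ / r) := by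
        intro M
        induction M with
        | nil => intro _; simp
        | cons x M ih =>
          intro hM
          have hx : r ≤ ‖x - a‖ := hM x (by simp)
          have hx0 : x - a ≠ 0 := by
            intro h
            rw [h, norm_zero] at hx
            linarith
          rw [List.length_cons, List.map_cons, List.sum_cons]
          have h9 : ((M.length + 1 : ℕ) : ℂ) - (x / (x - a) + (M.map (fun w => w / (w - a))).sum) =
              ((M.length : ℂ) - (M.map (fun w => w / (w - a))).sum) + (-a / (x - a)) := by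
            push_cast
            field_simp
            ring
          rw [h9]
          refine (norm_add_le _ _).trans ?_
          have h10 : ‖-a / (x - a)‖ ≤ ‖a‖ / r := by
            rw [norm_div, norm_neg]
            exact div_le_div_of_nonneg_left (norm_nonneg _) hr hx
          have h11 := ih fun w hw => hM w (by simp [hw])
          push_cast
          linarith
      have h9 := h8 L hmem'
      have h10 : (1 : ℂ) - E l 1 = ((L.length : ℂ) - l.sum) / L.length := by
        have : (L.length : ℂ) ≠ 0 := by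
          rw [hlen]; exact_mod_cast hN.ne'
        rw [E_one, hl, List.length_map]
        field_simp
      rw [h10, norm_div, Complex.norm_natCast, div_le_iff₀ (by rw [hlen]; exact hNR), mul_comm]
      exact h9
    rw [norm_mul, div_pow, le_div_iff₀ (by positivity)]
    calc ‖1 - E l 1‖ * ‖W l‖ * r ^ n
        = (‖1 - E l 1‖ * r) * r ^ (n - 1) * ‖W l‖ := by
          obtain ⟨m, rfl⟩ : ∃ m, n = m + 1 := ⟨n - 1, by omega⟩
          rw [Nat.add_sub_cancel, pow_succ]
          ring
      _ ≤ ‖a‖ * ‖(L.map (fun w => a - w)).prod‖ * ‖W l‖ := by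
          have h8 : ‖1 - E l 1‖ * r ≤ ‖a‖ := by
            rwa [le_div_iff₀ hr] at h7
          gcongr
      _ = ‖F.eval 0‖ := by rw [h4, norm_mul, norm_mul, norm_neg]
      _ ≤ _ := h5

/-- the two constants, centre `0`, exponent `1` -/
theorem centred (hn : 2 ≤ n) (k : Fin n) : ∃ w : ℂ,
    (derivative (∏ j, (X - C (z j)))).IsRoot w ∧
      ‖z k - w‖ ≤ 31 / 20 * (1 / n * ∑ j, ‖z j‖) ∧
      (4 ≤ n → ‖z k - w‖ ≤ 1 / (1 - √(2 / (n - 1))) * (1 / n * ∑ j, ‖z j‖)) := by
  set F : ℂ[X] := ∏ j, (X - C (z j)) with hF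
  set σ := 1 / (n : ℝ) * ∑ j, ‖z j‖ with hσ
  have hσ0 : 0 ≤ σ := by positivity
  have hd : derivative F ≠ 0 := by
    intro h
    have := nd_deriv z
    rw [← hF, h, natDegree_zero] at this
    omega
  have hroots : (derivative F).roots.toFinset.Nonempty := by
    rw [Multiset.toFinset_nonempty]
    intro h
    have h1 := (IsAlgClosed.splits (derivative F)).natDegree_eq_card_roots
    rw [h, hF, nd_deriv] at h1
    simp at h1
    omega
  obtain ⟨w, hw, hmin⟩ := Finset.exists_min_image _ (fun w => ‖z k - w‖) hroots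
  have hw' : (derivative F).IsRoot w := by
    rw [Multiset.mem_toFinset] at hw
    exact isRoot_of_mem_roots hw
  refine ⟨w, hw', ?_⟩
  have hcast : (((n - 1 : ℕ) : ℝ)) = n - 1 := by
    rw [Nat.cast_sub (by omega)]; simp
  have hsq : 4 ≤ n → √(2 / ((n : ℝ) - 1)) < 1 := by
    intro h4
    have h5 : (4 : ℝ) ≤ n := by exact_mod_cast h4
    rw [Real.sqrt_lt' one_pos, div_lt_iff₀ (by linarith)]
    linarith
  rcases eq_or_lt_of_le (norm_nonneg (z k - w)) with hr | hr
  · rw [← hr]
    refine ⟨by positivity, fun h4 => ?_⟩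
    have := hsq h4
    have h5 : 0 < 1 - √(2 / ((n : ℝ) - 1)) := by linarith
    positivity
  set r := ‖z k - w‖ with hrdef
  obtain ⟨l, hl, hq, hbd⟩ := core z hn k r hr (by
    intro w' hw'
    apply hmin
    rw [Multiset.mem_toFinset, mem_roots hd]
    exact hw')
  rw [← hσ] at hq hbd
  set x := σ / r with hx
  have hx0 : 0 ≤ x := by positivity
  have hlpos : 0 < l.length := by omega
  have hnn : l.length + 1 = n := by omega
  have hlR : (l.length : ℝ) = n - 1 := by rw [hl, hcast]
  constructor
  · -- 31/20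
    by_contra hcon
    push Not at hcon
    have hx1 : x < 20 / 31 := by
      rw [hx, div_lt_iff₀ hr]
      linarith
    have hq' : E (l.map norm) 1 ≤ 20 / 31 := hq.trans hx1.le
    have hpow : x ^ n ≤ (20 / 31 : ℝ) ^ (l.length + 1) := by
      rw [hnn]
      exact pow_le_pow_left₀ hx0 hx1.le n
    rcases Nat.lt_or_ge l.length 16 with h | h
    · have h1 := bound_small l hlpos hq'
      have h2 := numeric l.length hlpos (by omega)
      linarith
    · have h16 : (16 : ℝ) ≤ l.length := by exact_mod_cast h
      have h1 := bound_large l hlpos hq' (by norm_num) (by nlinarith)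
      have h2 := numeric_large (N := l.length) (x := 20 / 31) (by norm_num) (by norm_num)
        (by nlinarith)
      linarith
  · intro h4
    have h5 := hsq h4
    have h6 : 0 < 1 - √(2 / ((n : ℝ) - 1)) := by linarith
    rw [one_div, inv_mul_eq_div, le_div_iff₀ h6]
    by_contra hcon
    push Not at hcon
    have hx1 : x < 1 - √(2 / ((n : ℝ) - 1)) := by
      rw [hx, div_lt_iff₀ hr]
      linarith
    have hs0 := Real.sqrt_nonneg (2 / ((n : ℝ) - 1))
    have hx2 : x < 1 := by linarith
    have h7 : 2 ≤ l.length * (1 - x) ^ 2 := by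
      have h8 : √(2 / ((n : ℝ) - 1)) ^ 2 ≤ (1 - x) ^ 2 :=
        pow_le_pow_left₀ hs0 (by linarith) 2
      rw [Real.sq_sqrt (by
        apply div_nonneg (by norm_num)
        rw [← hlR]; exact Nat.cast_nonneg _)] at h8
      rw [hlR]
      have h9 : (0 : ℝ) < (n : ℝ) - 1 := by
        rw [← hlR]; exact Nat.cast_pos.2 hlpos
      rw [div_le_iff₀ h9] at h8
      linarith
    have h8 := bound_large l hlpos hq hx2 h7
    have h9 := numeric_large hx0 hx2 h7
    rw [hnn] at h9
    linarith

end poly

end Pool.Agent.Lib.MP_af3a4a_an
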