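import Mathlib

/-!
# Elementary symmetric means: an Eneström–Kakeya type inequality

For a list `l` of length `N` let `E m` be the `m`-th elementary symmetric mean. We bound
`(1 - E 1) * ∑ E m` from below for complex lists.
-/

namespace Pool.Agent.Lib.MP_af3a4a_an

open Finset

/-- elementary symmetric sums of a list -/
def e {R : Type*} [CommSemiring R] : List R → ℕ → R
  | [], 0 => 1
  | [], _ + 1 => 0
  | _ :: _, 0 => 1
  | x :: l, m + 1 => e l (m + 1) + x * e l m

/-- the sums `∑ x_k^2 e_{m-1}(others)` -/
def Z {R : Type*} [CommSemiring R] : List R → ℕ → R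
  | [], _ => 0
  | _ :: _, 0 => 0
  | x :: l, m + 1 => x ^ 2 * e l m + Z l (m + 1) + x * Z l m

section
variable {R : Type*} [CommSemiring R]

@[simp] lemma e_zero (l : List R) : e l 0 = 1 := by cases l <;> rfl
@[simp] lemma e_nil_succ (m : ℕ) : e ([] : List R) (m + 1) = 0 := rfl
@[simp] lemma Z_zero (l : List R) : Z l 0 = 0 := by cases l <;> rfl
@[simp] lemma Z_nil (m : ℕ) : Z ([] : List R) m = 0 := rfl
lemma e_cons (x : R) (l : List R) (m : ℕ) : e (x :: l) (m + 1) = e l (m + 1) + x * e l m := rfl
lemma Z_cons (x : R) (l : List R) (m : ℕ) :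
    Z (x :: l) (m + 1) = x ^ 2 * e l m + Z l (m + 1) + x * Z l m := rfl

lemma e_one (l : List R) : e l 1 = l.sum := by
  induction l with
  | nil => rfl
  | cons x l ih => rw [e_cons, ih, e_zero, mul_one, List.sum_cons, add_comm]

lemma e_of_gt (l : List R) : ∀ m, l.length < m → e l m = 0 := by
  induction l with
  | nil =>
    intro m hm
    obtain ⟨m, rfl⟩ := Nat.exists_eq_succ_of_ne_zero (show m ≠ 0 by simp at hm; omega)
    rfl
  | cons x l ih =>
    intro m hm
    obtain ⟨m, rfl⟩ := Nat.exists_eq_succ_of_ne_zero (show m ≠ 0 by simp at hm; omega)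
    rw [List.length_cons] at hm
    rw [Nat.succ_eq_add_one, e_cons, ih _ (by omega), ih _ (by omega), mul_zero, add_zero]

lemma e_one_mul (l : List R) : ∀ m : ℕ, e l 1 * e l m = (m + 1) * e l (m + 1) + Z l m := by
  induction l with
  | nil =>
    intro m
    cases m with
    | zero => simp [e]
    | succ m => simp [e]
  | cons x l ih =>
    intro m
    cases m with
    | zero => simp
    | succ m =>
      have h1 := ih (m + 1)
      have h2 := ih m
      rw [e_cons x l 0, e_cons x l m, e_cons x l (m + 1), Z_cons x l m, zero_add, e_zero, mul_one]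
      push_cast at h1 h2 ⊢
      have h3 : (e l 1 + x) * (e l (m + 1) + x * e l m) =
        e l 1 * e l (m + 1) + x * (e l 1 * e l m) + x * e l (m + 1) + x ^ 2 * e l m := by ring
      rw [h3, h1, h2]
      ring

end

section real

lemma e_nonneg (l : List ℝ) (hl : ∀ x ∈ l, 0 ≤ x) : ∀ m, 0 ≤ e l m := by
  induction l with
  | nil =>
    intro m
    cases m with
    | zero => simp
    | succ m => simp
  | cons x l ih =>
    intro m
    have hx : 0 ≤ x := hl x (by simp)
    have hl' := ih (fun y hy => hl y (by simp [hy]))
    cases m with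
    | zero => simp
    | succ m =>
      rw [e_cons]
      exact add_nonneg (hl' _) (mul_nonneg hx (hl' _))

/-- `E_{m+1} ≤ E_1 E_m` without division. -/
lemma e_succ_le (l : List ℝ) (hl : ∀ x ∈ l, 0 ≤ x) : ∀ m : ℕ,
    ((m : ℝ) + 1) * l.length * e l (m + 1) ≤ ((l.length : ℝ) - m) * (e l 1 * e l m) := by
  induction l with
  | nil =>
    intro m
    simp
  | cons x l ih =>
    intro m
    have hx : 0 ≤ x := hl x (by simp)
    have hl1 : ∀ y ∈ l, 0 ≤ y := fun y hy => hl y (by simp [hy])
    have hl' := ih hl1
    have hn := e_nonneg l hl1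
    cases m with
    | zero => simp
    | succ m =>
      have h1 := hl' (m + 1)
      have h2 := hl' m
      rw [e_cons x l 0, e_cons x l m, e_cons x l (m + 1), zero_add, e_zero, mul_one,
        List.length_cons]
      push_cast at h1 h2 ⊢
      set N : ℝ := (l.length : ℝ)
      rcases Nat.eq_zero_or_pos l.length with hN | hN
      · -- empty list
        have : l = [] := List.length_eq_zero_iff.1 hN
        subst this
        simp only [e_nil_succ, List.length_nil, Nat.cast_zero, N]
        cases m with
        | zero => simp [e]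
        | succ m => simp [e]
      · have hNpos : (0 : ℝ) < N := Nat.cast_pos.2 hN
        have he1 := hn 1
        have hem := hn m
        have hem1 := hn (m + 1)
        have hem2 := hn (m + 2)
        set A := e l 1
        set B := e l m
        set C := e l (m + 1)
        set D := e l (m + 2)
        have hm0 : (0 : ℝ) ≤ m := Nat.cast_nonneg m
        -- h1 : (m+2) N D ≤ (N - (m+1)) A C ; h2 : (m+1) N C ≤ (N-m) A B
        -- it suffices to multiply by N
        have key : (N + 1) * (((m : ℝ) + 1 + 1) * N * D) ≤
            (N + 1) * ((N - (m + 1)) * (A * C)) :=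
          mul_le_mul_of_nonneg_left h1 (by linarith)
        -- remaining: (m+1) A C + N(N-m) x A B + N (N-m) x^2 B ≥ N (m+1)(N+2) x C
        have key2 : N * x * ((m + 1) * N * C) ≤ N * x * ((N - m) * (A * B)) :=
          mul_le_mul_of_nonneg_left h2 (by positivity)
        have key3 : 2 * N * (m + 1) * x * C ≤ (m + 1) * (A * C) + N * (N - m) * x ^ 2 * B := by
          rcases eq_or_lt_of_le he1 with hA | hA
          · -- A = 0: then C = 0
            have hC : C = 0 := by
              have h3 : (m + 1) * N * C ≤ 0 := by
                rw [← hA] at h2; simpa using h2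
              have h4 : 0 < ((m : ℝ) + 1) * N := by positivity
              nlinarith
            have hB : 0 ≤ N * (N - m) * x ^ 2 * B := by
              rcases le_or_gt m l.length with h | h
              · have : (m : ℝ) ≤ N := Nat.cast_le.2 h
                have : 0 ≤ N - m := by linarith
                positivity
              · have : B = 0 := e_of_gt l m h
                rw [this]; simp
            rw [hC]; simpa using hB
          · -- multiply by A
            have h3 : N * x ^ 2 * ((m + 1) * N * C) ≤ N * x ^ 2 * ((N - m) * (A * B)) :=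
              mul_le_mul_of_nonneg_left h2 (by positivity)
            have h4 : 0 ≤ (m + 1) * C * (A - N * x) ^ 2 := by positivity
            have h5 : A * (2 * N * (m + 1) * x * C) ≤
                A * ((m + 1) * (A * C) + N * (N - m) * x ^ 2 * B) := by nlinarith
            exact le_of_mul_le_mul_left h5 hA
        have goal : N * (((m : ℝ) + 1 + 1) * (N + 1) * (D + x * C)) ≤
            N * ((N + 1 - (m + 1)) * ((A + x) * (C + x * B))) := by
          nlinarith
        exact le_of_mul_le_mul_left goal hNpos

end real

section complex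

lemma norm_e_le (l : List ℂ) : ∀ m, ‖e l m‖ ≤ e (l.map norm) m := by
  induction l with
  | nil =>
    intro m
    cases m with
    | zero => simp
    | succ m => simp
  | cons x l ih =>
    intro m
    cases m with
    | zero => simp
    | succ m =>
      rw [List.map_cons, e_cons, e_cons]
      refine (norm_add_le _ _).trans (add_le_add (ih _) ?_)
      rw [norm_mul]
      exact mul_le_mul_of_nonneg_left (ih _) (norm_nonneg _)

lemma norm_Z_le (l : List ℂ) : ∀ m, ‖Z l m‖ ≤ Z (l.map norm) m := by
  induction l with
  | nil => intro m; simp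
  | cons x l ih =>
    intro m
    cases m with
    | zero => simp
    | succ m =>
      rw [List.map_cons, Z_cons, Z_cons]
      refine (norm_add_le _ _).trans (add_le_add ((norm_add_le _ _).trans
        (add_le_add ?_ (ih _))) ?_)
      · rw [norm_mul, norm_pow]
        exact mul_le_mul_of_nonneg_left (norm_e_le _ _) (by positivity)
      · rw [norm_mul]
        exact mul_le_mul_of_nonneg_left (ih _) (norm_nonneg _)

end complex

/-- the elementary symmetric means -/
noncomputable def E {R : Type*} [Field R] (l : List R) (m : ℕ) : R :=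
  e l m / (l.length.choose m : R)

section means

variable {R : Type*} [Field R]

@[simp] lemma E_zero (l : List R) : E l 0 = 1 := by simp [E]

lemma E_of_gt (l : List R) (m : ℕ) (h : l.length < m) : E l m = 0 := by
  rw [E, e_of_gt l m h, zero_div]

lemma E_one (l : List R) : E l 1 = l.sum / l.length := by simp [E, e_one]

/-- `E_1 E_m - E_{m+1} = Z_m / (N C(N,m)) - (m/N) E_{m+1}` -/
lemma E_one_mul [CharZero R] (l : List R) (hl : 0 < l.length) (m : ℕ) (hm : m ≤ l.length) :
    E l 1 * E l m = Z l m / (l.length * l.length.choose m) +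
      ((l.length : R) - m) / l.length * E l (m + 1) := by
  have hN : (l.length : R) ≠ 0 := by exact_mod_cast hl.ne'
  have hc : (l.length.choose m : R) ≠ 0 := by exact_mod_cast (Nat.choose_pos hm).ne'
  have h1 := e_one_mul l m
  rcases Nat.lt_or_ge m l.length with h | h
  · have hc1 : (l.length.choose (m + 1) : R) ≠ 0 := by exact_mod_cast (Nat.choose_pos h).ne'
    have h2 : (l.length.choose (m + 1) : R) * (m + 1) = l.length.choose m * (l.length - m) := by
      have := Nat.choose_succ_right_eq l.length m
      have h3 : ((l.length - m : ℕ) : R) = (l.length : R) - m := by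
        rw [Nat.cast_sub hm]
      rw [← h3]
      exact_mod_cast this
    rw [E, E, E, Nat.choose_one_right]
    field_simp
    calc e l 1 * e l m * (l.length.choose (m + 1) : R)
        = (Z l m + (m + 1) * e l (m + 1)) * l.length.choose (m + 1) := by rw [h1]; ring
      _ = Z l m * l.length.choose (m + 1) +
          (l.length.choose (m + 1) * (m + 1)) * e l (m + 1) := by ring
      _ = _ := by rw [h2]
  · have : m = l.length := le_antisymm hm h
    subst this
    rw [E_of_gt l (l.length + 1) (by omega), e_of_gt l (l.length + 1) (by omega)] at *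
    rw [E, E, Nat.choose_one_right, Nat.choose_self]
    have h2 : e l 1 * e l l.length = Z l l.length := by rw [h1]; ring
    field_simp
    rw [← h2]
    simp

end means

section bound

/-- `W = ∑ E_m` -/
noncomputable def W {R : Type*} [Field R] (l : List R) : R := ∑ m ∈ range (l.length + 1), E l m

lemma E_real_nonneg (l : List ℝ) (hl : ∀ x ∈ l, 0 ≤ x) (m : ℕ) : 0 ≤ E l m :=
  div_nonneg (e_nonneg l hl m) (Nat.cast_nonneg _)

lemma E_succ_le (l : List ℝ) (hl : ∀ x ∈ l, 0 ≤ x) (m : ℕ) : E l (m + 1) ≤ E l 1 * E l m := by
  rcases Nat.lt_or_ge m l.length with h | h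
  · have hN : 0 < l.length := by omega
    have hNR : (0 : ℝ) < l.length := Nat.cast_pos.2 hN
    have hc : (0 : ℝ) < l.length.choose m := Nat.cast_pos.2 (Nat.choose_pos h.le)
    have hc1 : (0 : ℝ) < l.length.choose (m + 1) := Nat.cast_pos.2 (Nat.choose_pos h)
    have h2 : (l.length.choose (m + 1) : ℝ) * (m + 1) = l.length.choose m * (l.length - m) := by
      have := Nat.choose_succ_right_eq l.length m
      have h3 : ((l.length - m : ℕ) : ℝ) = (l.length : ℝ) - m := by
        rw [Nat.cast_sub h.le]
      rw [← h3]
      exact_mod_cast this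
    have h1 := e_succ_le l hl m
    rw [E, E, E, Nat.choose_one_right, div_mul_div_comm, div_le_div_iff₀ hc1 (by positivity)]
    have h3 : (0 : ℝ) < m + 1 := by positivity
    have h4 : (m + 1) * (e l (m + 1) * (l.length * (l.length.choose m : ℝ))) ≤
        (m + 1) * (e l 1 * e l m * (l.length.choose (m + 1) : ℝ)) := by
      calc (m + 1) * (e l (m + 1) * (l.length * (l.length.choose m : ℝ)))
          = ((m : ℝ) + 1) * l.length * e l (m + 1) * (l.length.choose m : ℝ) := by ring
        _ ≤ ((l.length : ℝ) - m) * (e l 1 * e l m) * (l.length.choose m : ℝ) :=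
            mul_le_mul_of_nonneg_right h1 hc.le
        _ = (l.length.choose m * (l.length - m)) * (e l 1 * e l m) := by ring
        _ = _ := by rw [← h2]; ring
    exact le_of_mul_le_mul_left h4 h3
  · rw [E_of_gt l (m + 1) (by omega)]
    exact mul_nonneg (E_real_nonneg l hl 1) (E_real_nonneg l hl m)

lemma E_le_pow (l : List ℝ) (hl : ∀ x ∈ l, 0 ≤ x) : ∀ m : ℕ, E l m ≤ E l 1 ^ m
  | 0 => by simp
  | m + 1 => by
    rw [pow_succ']
    exact (E_succ_le l hl m).trans
      (mul_le_mul_of_nonneg_left (E_le_pow l hl m) (E_real_nonneg l hl 1))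

lemma map_norm_nonneg (l : List ℂ) : ∀ x ∈ l.map norm, (0 : ℝ) ≤ x := by
  intro x hx
  obtain ⟨y, -, rfl⟩ := List.mem_map.1 hx
  exact norm_nonneg _

/-- the key inequality -/
theorem norm_one_sub_mul_W (l : List ℂ) (hl : 0 < l.length) :
    (1 - E (l.map norm) 1) * W (l.map norm) -
      2 / l.length * ∑ m ∈ range (l.length + 1), (m : ℝ) * E (l.map norm) (m + 1) ≤
    ‖(1 - E l 1) * W l‖ := by
  set t := l.map norm with ht
  have htl : t.length = l.length := by rw [ht, List.length_map]
  have htn := map_norm_nonneg l
  rw [← ht] at htn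
  have hNR : (0 : ℝ) < l.length := Nat.cast_pos.2 hl
  -- the complex identity
  have h1 : (1 - E l 1) * W l = 1 - ∑ m ∈ range (l.length + 1), (E l 1 * E l m - E l (m + 1)) := by
    have h2 : ∑ m ∈ range (l.length + 1), E l m =
        1 + ∑ m ∈ range (l.length + 1), E l (m + 1) := by
      rw [Finset.sum_range_succ' (fun m => E l m), E_zero,
        Finset.sum_range_succ (fun m => E l (m + 1)), E_of_gt l (l.length + 1) (by omega)]
      ring
    rw [Finset.sum_sub_distrib, ← Finset.mul_sum, W]
    nth_rewrite 1 [sub_mul]
    rw [one_mul]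
    nth_rewrite 1 [h2]
    ring
  -- the real identity
  have h1r : (1 - E t 1) * W t = 1 - ∑ m ∈ range (l.length + 1), (E t 1 * E t m - E t (m + 1)) := by
    have h2 : ∑ m ∈ range (l.length + 1), E t m =
        1 + ∑ m ∈ range (l.length + 1), E t (m + 1) := by
      rw [Finset.sum_range_succ' (fun m => E t m), E_zero,
        Finset.sum_range_succ (fun m => E t (m + 1)), E_of_gt t (l.length + 1) (by omega)]
      ring
    rw [Finset.sum_sub_distrib, ← Finset.mul_sum, W, htl]
    nth_rewrite 1 [sub_mul]
    rw [one_mul]
    nth_rewrite 1 [h2]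
    ring
  have h3 : ∀ m ∈ range (l.length + 1), ‖E l 1 * E l m - E l (m + 1)‖ ≤
      (E t 1 * E t m - E t (m + 1)) + 2 / l.length * ((m : ℝ) * E t (m + 1)) := by
    intro m hm
    have hm' : m ≤ l.length := by
      have := Finset.mem_range.1 hm; omega
    have hc : (0 : ℝ) < l.length.choose m := Nat.cast_pos.2 (Nat.choose_pos hm')
    have h4 := E_one_mul l hl m hm'
    have h5 := E_one_mul t (by omega) m (by omega)
    rw [htl] at h5
    have h6 : E l 1 * E l m - E l (m + 1) =
        Z l m / (l.length * l.length.choose m) - ((m : ℂ) / l.length) * E l (m + 1) := by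
      rw [h4]
      have : (l.length : ℂ) ≠ 0 := by exact_mod_cast hl.ne'
      field_simp
      ring
    rw [h6]
    have h7 : ‖Z l m / (l.length * l.length.choose m : ℂ)‖ ≤
        Z t m / (l.length * l.length.choose m) := by
      rw [norm_div, norm_mul, Complex.norm_natCast, Complex.norm_natCast]
      exact div_le_div_of_nonneg_right (norm_Z_le l m) (by positivity)
    have h8 : ‖((m : ℂ) / l.length) * E l (m + 1)‖ ≤ (m / l.length) * E t (m + 1) := by
      rw [norm_mul, norm_div, Complex.norm_natCast, Complex.norm_natCast]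
      refine mul_le_mul_of_nonneg_left ?_ (by positivity)
      rw [E, E, norm_div, Complex.norm_natCast, htl]
      exact div_le_div_of_nonneg_right (norm_e_le l _) (Nat.cast_nonneg _)
    refine (norm_sub_le _ _).trans ((add_le_add h7 h8).trans (le_of_eq ?_))
    rw [h5]
    field_simp
    ring
  rw [h1]
  have h9 : ‖∑ m ∈ range (l.length + 1), (E l 1 * E l m - E l (m + 1))‖ ≤
      ∑ m ∈ range (l.length + 1), (E t 1 * E t m - E t (m + 1)) +
        2 / l.length * ∑ m ∈ range (l.length + 1), (m : ℝ) * E t (m + 1) := by
    refine (norm_sum_le _ _).trans ((Finset.sum_le_sum h3).trans (le_of_eq ?_))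
    rw [Finset.sum_add_distrib, ← Finset.mul_sum]
  have h10 := norm_sub_norm_le (1 : ℂ) (∑ m ∈ range (l.length + 1), (E l 1 * E l m - E l (m + 1)))
  rw [norm_one] at h10
  rw [h1r]
  linarith

end bound

end Pool.Agent.Lib.MP_af3a4a_an
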